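import Mathlib
import Pool.Agent.Work.MP_959bfa_co.Plane

/-!
# MP_959bfa_co: linear weak nets when one side of the rectangle comes from laminar families

For rectangles `I × J` where `I` is an arbitrary interval and `J` is a member of a laminar family
(any two members nested or disjoint, of arbitrary depth), `5 n / k` points are enough.
-/

set_option autoImplicit false

namespace Pool.Agent.Results.MP_959bfa_co.LaminarStrips

/-- A family of subsets of the line is laminar if any two members are nested or disjoint. -/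
def IsLaminar (𝒥 : Set (Set ℝ)) : Prop :=
  ∀ J ∈ 𝒥, ∀ J' ∈ 𝒥, J ⊆ J' ∨ J' ⊆ J ∨ Disjoint J J'

/-- For every finite `A`, every `k ≥ 1` and all laminar families `𝒥 0, ..., 𝒥 (q - 1)` of subsets
of the `y`-axis there are at most `5 q r |A| / k` points which meet every set `I × J` containing at
least `k` points of `A`, where `I` is an arbitrary interval and `J` is a union of at most `r`
members of the families. -/
theorem result (k q r : ℕ) (hk : 1 ≤ k) (A : Finset (ℝ × ℝ)) (𝒥 : Fin q → Set (Set ℝ))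
    (h𝒥 : ∀ i, IsLaminar (𝒥 i)) :
    ∃ A' : Finset (ℝ × ℝ), (A'.card : ℝ) ≤ 5 * q * r * A.card / k ∧
      ∀ I : Set ℝ, I.OrdConnected → ∀ 𝒦 : Finset (Set ℝ), 𝒦.card ≤ r →
        (∀ K ∈ 𝒦, ∃ i, K ∈ 𝒥 i) → ∀ J : Set ℝ, J = ⋃₀ (𝒦 : Set (Set ℝ)) →
        k ≤ ((A : Set (ℝ × ℝ)) ∩ I ×ˢ J).ncard → ∃ p ∈ A', p ∈ I ×ˢ J := by
  obtain ⟨A', h1, h2⟩ := Pool.Agent.Work.MP_959bfa_co.plane_many k q r hk A 𝒥 h𝒥
  refine ⟨A', ?_, ?_⟩
  · have hk' : (0 : ℝ) < k := by exact_mod_cast hk
    rw [le_div_iff₀ hk']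
    have h3 : ((k * A'.card : ℕ) : ℝ) ≤ ((5 * q * r * A.card : ℕ) : ℝ) := by exact_mod_cast h1
    push_cast at h3
    linarith
  · rintro I hI 𝒦 hcard h𝒦 J rfl hm
    exact h2 I hI 𝒦 hcard h𝒦 hm

end Pool.Agent.Results.MP_959bfa_co.LaminarStrips
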